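import Pool.Agent.Q23.RC.Stm2
import Pool.Agent.Q214.RC.Sm

/-!
# Project RC (helper23), job INF: the peripheral subgroups are infinite
-/

set_option autoImplicit false

open scoped Matrix

namespace Pool.Agent.Q256.RC

open Pool.Agent.Q23.RC

noncomputable section

variable {G : Type} [Group G]

/-- the twisted inversion as a homomorphism to the opposite algebra -/
def sgH (w : G →* ℤˣ) : G →* (MonoidAlgebra ℂ G)ᵐᵒᵖ where
  toFun g := MulOpposite.op (MonoidAlgebra.single g⁻¹ ((w g : ℤ) : ℂ))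
  map_one' := by
    rw [inv_one, map_one, Units.val_one, Int.cast_one]
    rfl
  map_mul' g h := by
    rw [← MulOpposite.op_mul, MonoidAlgebra.single_mul_single, mul_inv_rev, map_mul,
      Units.val_mul, Int.cast_mul, mul_comm ((w g : ℤ) : ℂ)]

/-- the twisted inversion -/
def sg (w : G →* ℤˣ) : MonoidAlgebra ℂ G →ₗ[ℂ] MonoidAlgebra ℂ G :=
  (MulOpposite.opLinearEquiv ℂ).symm.toLinearMap ∘ₗ
    (MonoidAlgebra.lift ℂ (MonoidAlgebra ℂ G)ᵐᵒᵖ G (sgH w)).toLinearMap

lemma sg_single (w : G →* ℤˣ) (g : G) (r : ℂ) :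
    sg w (MonoidAlgebra.single g r) = MonoidAlgebra.single g⁻¹ (r * ((w g : ℤ) : ℂ)) := by
  change MulOpposite.unop (MonoidAlgebra.lift ℂ (MonoidAlgebra ℂ G)ᵐᵒᵖ G (sgH w)
    (MonoidAlgebra.single g r)) = _
  rw [MonoidAlgebra.lift_single]
  change r • MonoidAlgebra.single g⁻¹ ((w g : ℤ) : ℂ) = _
  rw [MonoidAlgebra.smul_single, smul_eq_mul]

lemma sg_mul (w : G →* ℤˣ) (a b : MonoidAlgebra ℂ G) : sg w (a * b) = sg w b * sg w a := by
  change MulOpposite.unop (MonoidAlgebra.lift ℂ (MonoidAlgebra ℂ G)ᵐᵒᵖ G (sgH w) (a * b)) = _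
  rw [map_mul]
  rfl

lemma sg_sg (w : G →* ℤˣ) (a : MonoidAlgebra ℂ G) : sg w (sg w a) = a := by
  induction a using MonoidAlgebra.induction_linear with
  | zero => rw [map_zero, map_zero]
  | add a b ha hb => rw [map_add, map_add, ha, hb]
  | single g r =>
    rw [sg_single, sg_single, inv_inv, mul_assoc, ← Int.cast_mul, ← Units.val_mul, ← map_mul,
      mul_inv_cancel, map_one, Units.val_one, Int.cast_one, mul_one]

/-- the map on cosets -/
def Psi {c : ℕ} (H : Fin c → Subgroup G) (b : Fin c) (N : MonoidAlgebra ℂ G) (e : Cos H) :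
    MonoidAlgebra ℂ G :=
  if e.1 = b then MonoidAlgebra.single (Quotient.out e.2) 1 * N else 0

lemma Psi_smul {c : ℕ} (H : Fin c → Subgroup G) (b : Fin c) (N : MonoidAlgebra ℂ G)
    (hN : ∀ h ∈ H b, MonoidAlgebra.single h 1 * N = N) (g : G) (e : Cos H) :
    Psi H b N (g • e) = MonoidAlgebra.single g 1 * Psi H b N e := by
  obtain ⟨a, q⟩ := e
  have hge : (g • (⟨a, q⟩ : Cos H)) = ⟨a, g • q⟩ := rfl
  rw [hge]
  by_cases hb : a = b
  · subst hb
    have hy : ((Quotient.out (g • q) : G) : G ⧸ H a) = ((g * Quotient.out q : G) : G ⧸ H a) := by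
      rw [show (((Quotient.out (g • q) : G)) : G ⧸ H a) = g • q from Quotient.out_eq' _]
      conv_lhs => rw [← Quotient.out_eq' q]
      rfl
    have ht := QuotientGroup.eq.mp hy
    simp only [Psi, if_true]
    have e1 : (MonoidAlgebra.single g 1 : MonoidAlgebra ℂ G) *
        (MonoidAlgebra.single (Quotient.out q) 1 * N) =
        MonoidAlgebra.single (Quotient.out (g • q)) 1 *
          (MonoidAlgebra.single ((Quotient.out (g • q))⁻¹ * (g * Quotient.out q)) 1 * N) := by
      rw [← mul_assoc, ← mul_assoc, MonoidAlgebra.single_mul_single,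
        MonoidAlgebra.single_mul_single, mul_inv_cancel_left]
    rw [e1, hN _ ht]
  · simp only [Psi, if_neg hb, mul_zero]

theorem key (P : PDPair3 G) (b : Fin P.c) (N : MonoidAlgebra ℂ G)
    (hN : ∀ h ∈ P.H b, MonoidAlgebra.single h 1 * N = N) :
    ∀ e e' : Cos P.H, Psi P.H b N e = Psi P.H b N e' := by
  set ψ : (Cos P.H →₀ ℂ) →ₗ[ℂ] MonoidAlgebra ℂ G := Finsupp.linearCombination ℂ (Psi P.H b N)
    with hψ
  have hmap : ∀ (g : G) (x : Cos P.H →₀ ℂ), ψ (x.mapDomain fun e => g • e) =
      MonoidAlgebra.single g 1 * ψ x := by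
    intro g x
    induction x using Finsupp.induction_linear with
    | zero => rw [Finsupp.mapDomain_zero, map_zero, mul_zero]
    | add x y hx hy => rw [Finsupp.mapDomain_add, map_add, map_add, hx, hy, mul_add]
    | single e s =>
      rw [Finsupp.mapDomain_single, hψ, Finsupp.linearCombination_single,
        Finsupp.linearCombination_single, Psi_smul _ _ _ hN, mul_smul_comm]
  set v : Fin P.X.n2 → MonoidAlgebra ℂ G := fun k => ψ (P.ev (Pi.single k 1)) with hv
  have hsum : ∀ y : Fin P.X.n2 → MonoidAlgebra ℂ G, ψ (P.ev y) = ∑ k, sg P.w (y k) * v k := by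
    refine Pool.Agent.Q214.RC.ind_all _ ?_ ?_ ?_
    · rw [map_zero, map_zero]
      refine (Finset.sum_eq_zero fun k _ => ?_).symm
      rw [Pi.zero_apply, map_zero, zero_mul]
    · intro x y hx hy
      rw [map_add, map_add, hx, hy, ← Finset.sum_add_distrib]
      refine Finset.sum_congr rfl fun k _ => ?_
      rw [Pi.add_apply, map_add, add_mul]
    · intro k g r
      rw [map_smul, map_smul, P.smul, map_zsmul, hmap]
      rw [Finset.sum_eq_single k]
      · rw [Pi.smul_apply, Pi.single_eq_same, one_mul, MonoidAlgebra.smul_single, sg_single,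
          smul_eq_mul, mul_one, ← Int.cast_smul_eq_zsmul ℂ, ← smul_mul_assoc, ← smul_mul_assoc,
          MonoidAlgebra.smul_single, MonoidAlgebra.smul_single, smul_eq_mul, smul_eq_mul, mul_one]
      · intro j _ hj
        rw [Pi.smul_apply, Pi.single_eq_of_ne hj, zero_mul, smul_zero, map_zero, zero_mul]
      · intro h
        exact absurd (Finset.mem_univ _) h
  set r : Fin P.X.n2 → MonoidAlgebra ℂ G := fun k => sg P.w (v k) with hr
  have hdot : ∀ y : Fin P.X.n2 → MonoidAlgebra ℂ G, r ⬝ᵥ y = sg P.w (ψ (P.ev y)) := by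
    intro y
    rw [hsum, map_sum]
    refine Finset.sum_congr rfl fun k _ => ?_
    rw [sg_mul, sg_sg]
  have hev1 : ∀ z, P.ev (P.X.d2 *ᵥ z) = 0 := fun z =>
    (P.ker _).2 ⟨z, by rw [Matrix.mulVec_mulVec, P.p_mul_d2]⟩
  have hev2 : ∀ y, P.ev (P.p *ᵥ y) = P.ev y := by
    intro y
    rw [← sub_eq_zero, ← map_sub]
    refine (P.ker _).2 ⟨0, ?_⟩
    rw [Matrix.mulVec_zero, Matrix.mulVec_sub, Matrix.mulVec_mulVec, P.p_mul_p, sub_self]
  have h1 : r ᵥ* P.X.d2 = 0 := by
    funext l
    have h := hdot (P.X.d2 *ᵥ Pi.single l 1)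
    rw [hev1, map_zero, map_zero, Matrix.mulVec_single_one] at h
    exact h
  have h2 : r ᵥ* P.p = r := by
    funext l
    have h := hdot (P.p *ᵥ Pi.single l 1)
    rw [hev2, Matrix.mulVec_single_one] at h
    exact h
  have h3 : r = 0 := h2.symm.trans (P.exact_two r h1)
  have h4 : ∀ k, v k = 0 := by
    intro k
    have h5 : sg P.w (r k) = v k := sg_sg _ _
    rw [← h5, h3, Pi.zero_apply, map_zero]
  have h6 : ∀ y, ψ (P.ev y) = 0 := by
    intro y
    rw [hsum]
    exact Finset.sum_eq_zero fun k _ => by rw [h4, mul_zero]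
  intro e e'
  obtain ⟨y, hy⟩ := (P.range (Finsupp.single e 1 - Finsupp.single e' 1)).1 (by
    rw [Finsupp.sum_sub_index (fun _ _ _ => rfl), Finsupp.sum_single_index rfl,
      Finsupp.sum_single_index rfl, sub_self])
  have h7 := h6 y
  rw [hy, map_sub, hψ, Finsupp.linearCombination_single, Finsupp.linearCombination_single,
    one_smul, one_smul] at h7
  exact sub_eq_zero.1 h7

lemma augC_single (g : G) (r : ℂ) : augC G (MonoidAlgebra.single g r) = r := by
  unfold augC
  rw [MonoidAlgebra.lift_single]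
  simp

theorem inf : S_inf := by
  intro G _ P b
  by_contra hinf
  rw [not_infinite_iff_finite] at hinf
  have : Fintype (P.H b) := Fintype.ofFinite _
  set N : MonoidAlgebra ℂ G := ∑ h : P.H b, MonoidAlgebra.single (h : G) 1 with hNdef
  have hN : ∀ h ∈ P.H b, MonoidAlgebra.single h 1 * N = N := by
    intro h hh
    rw [hNdef, Finset.mul_sum]
    have : ∀ x : P.H b, (MonoidAlgebra.single h 1 : MonoidAlgebra ℂ G) *
        MonoidAlgebra.single (x : G) 1 = MonoidAlgebra.single (((⟨h, hh⟩ * x : P.H b)) : G) 1 := by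
      intro x
      rw [MonoidAlgebra.single_mul_single, mul_one]
      rfl
    rw [Finset.sum_congr rfl fun x _ => this x]
    exact Equiv.sum_comp (Equiv.mulLeft (⟨h, hh⟩ : P.H b))
      (fun x : P.H b => (MonoidAlgebra.single (x : G) 1 : MonoidAlgebra ℂ G))
  have haugN : augC G N ≠ 0 := by
    rw [hNdef, map_sum, Finset.sum_congr rfl fun x _ => augC_single _ _, Finset.sum_const,
      Finset.card_univ, nsmul_eq_mul, mul_one]
    exact Nat.cast_ne_zero.2 Fintype.card_ne_zero
  have hk := key P b N hN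
  set e0 : Cos P.H := ⟨b, ((1 : G) : G ⧸ P.H b)⟩ with he0
  set M := Psi P.H b N e0 with hM
  have haugM : augC G M ≠ 0 := by
    rw [hM]
    unfold Psi
    rw [if_pos rfl, map_mul, augC_single, one_mul]
    exact haugN
  have hM0 : M ≠ 0 := by
    intro h
    rw [h, map_zero] at haugM
    exact haugM rfl
  have hinv : ∀ g : G, MonoidAlgebra.single g 1 * M = M := by
    intro g
    rw [hM, ← Psi_smul _ _ _ hN]
    exact hk _ _
  have hact : ∀ a : MonoidAlgebra ℂ G, a * M = augC G a • M := by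
    intro a
    induction a using MonoidAlgebra.induction_linear with
    | zero => rw [zero_mul, map_zero, zero_smul]
    | add a c ha hc => rw [add_mul, map_add, add_smul, ha, hc]
    | single g r =>
      have e1 : (MonoidAlgebra.single g r : MonoidAlgebra ℂ G) = r • MonoidAlgebra.single g 1 := by
        rw [MonoidAlgebra.smul_single, smul_eq_mul, mul_one]
      rw [augC_single, e1, smul_mul_assoc, hinv]
  have hy : (fun j => P.X.aug j • M : Fin P.X.n0 → MonoidAlgebra ℂ G) = 0 := by
    apply P.coh_zero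
    funext k
    have hrow : ∑ j, augC G (P.X.d1 k j) * P.X.aug j = 0 := by
      refine (P.X.exact_zero (P.X.d1 k)).2 ⟨Pi.single k 1, ?_⟩
      exact Matrix.single_one_vecMul k _
    show ∑ j, P.X.d1 k j * (P.X.aug j • M) = 0
    have e2 : ∀ j, P.X.d1 k j * (P.X.aug j • M) = (augC G (P.X.d1 k j) * P.X.aug j) • M := by
      intro j
      rw [mul_smul_comm, hact, smul_smul, mul_comm]
    rw [Finset.sum_congr rfl fun j _ => e2 j, ← Finset.sum_smul, hrow, zero_smul]
  have haug : ∀ j, P.X.aug j = 0 := by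
    intro j
    have := congrFun hy j
    exact (smul_eq_zero.1 this).resolve_right hM0
  obtain ⟨x, hx⟩ := P.X.surj
  rw [Finset.sum_eq_zero fun j _ => by rw [haug j, mul_zero]] at hx
  exact zero_ne_one hx

end

end Pool.Agent.Q256.RC
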